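import Pool.Agent.Helper19.RD.Stmts8
import Pool.Agent.Helper13.Hall.Divisor

set_option autoImplicit false

namespace Pool.Agent.Helper93.RD8

open Finset Pool.Agent.Helper18.RD Pool.Agent.Helper19.RD

/-- exponent of a prime in a square is even -/
theorem even_of_sq {a b p : ℕ} (ha : a ≠ 0) (hb : b ≠ 0) (h : IsSquare (a * b)) :
    Even (a.factorization p + b.factorization p) := by
  obtain ⟨r, hr⟩ := h
  have hr0 : r ≠ 0 := by
    rintro rfl
    exact mul_ne_zero ha hb hr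
  have h1 : (a * b).factorization p = a.factorization p + b.factorization p := by
    rw [Nat.factorization_mul ha hb]; rfl
  rw [← h1, hr, Nat.factorization_mul hr0 hr0]
  exact ⟨r.factorization p, rfl⟩

theorem osf_pos (Y : ℤ) : 0 < osf Y := by
  unfold osf
  apply prod_pos
  intro p hp
  exact (Nat.prime_of_mem_primeFactors (mem_filter.1 hp).1).pos

theorem osf_primeFactors (Y : ℤ) :
    (osf Y).primeFactors = Y.natAbs.primeFactors.filter
      (fun p => p ≠ 2 ∧ Odd (Y.natAbs.factorization p)) := by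
  unfold osf
  apply Nat.primeFactors_prod
  intro p hp
  exact Nat.prime_of_mem_primeFactors (mem_filter.1 hp).1

/-- product over a set of primes -/
theorem prod_primes {P : Finset ℕ} (hP : ∀ p ∈ P, p.Prime) (h2 : 2 ∉ P) :
    Squarefree (∏ p ∈ P, p) ∧ Odd (∏ p ∈ P, p) ∧ (∏ p ∈ P, p).primeFactors = P := by
  refine ⟨?_, ?_, Nat.primeFactors_prod hP⟩
  · have h := Finset.squarefree_prod_of_pairwise_isCoprime (s := P) (f := fun p : ℕ => p) ?_ ?_
    · exact h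
    · intro p hp q hq hpq
      exact Nat.coprime_iff_isRelPrime.1 ((Nat.coprime_primes (hP p hp) (hP q hq)).2 hpq)
    · intro p hp
      exact (hP p hp).squarefree
  · apply Finset.prod_induction _ Odd (fun a b ha hb => ha.mul hb) odd_one
    intro p hp
    exact (hP p hp).odd_of_ne_two (fun h => h2 (h ▸ hp))

/-- the four edges -/
def ed (t : ℕ × ℕ × ℕ × ℕ) : Fin 4 → ℕ × ℕ :=
  ![(t.1, t.2.2.1), (t.1, t.2.2.2), (t.2.1, t.2.2.1), (t.2.1, t.2.2.2)]

/-- the other two vertices -/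
def ot (t : ℕ × ℕ × ℕ × ℕ) : Fin 4 → ℕ × ℕ :=
  ![(t.2.1, t.2.2.2), (t.2.1, t.2.2.1), (t.1, t.2.2.2), (t.1, t.2.2.1)]

theorem cyc_ed (d : ℕ → ℕ → ℤ) (t : ℕ × ℕ × ℕ × ℕ) :
    cyc d t = ∏ i, d (ed t i).1 (ed t i).2 := by
  rw [Fin.prod_univ_four]
  rfl

theorem ed_ot {t t' : ℕ × ℕ × ℕ × ℕ} {i : Fin 4} (h1 : ed t i = ed t' i)
    (h2 : ot t i = ot t' i) : t = t' := by
  obtain ⟨x, y, z, w⟩ := t
  obtain ⟨x', y', z', w'⟩ := t'
  fin_cases i <;> simp [ed, ot] at h1 h2 <;> simp [h1, h2]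

open Classical in
/-- the bad pairs -/
noncomputable def bad (J : Finset ℕ) (d : ℕ → ℕ → ℤ) (b : ℕ → ℕ) (h : ℕ) : Finset (ℕ × ℕ) :=
  (J ×ˢ J).filter (fun x => x.1 ≠ x.2 ∧ ∀ p ∈ h.primeFactors,
        (d x.1 x.2).natAbs.factorization p ≠ b p)

theorem bad_card (J : Finset ℕ) (d : ℕ → ℕ → ℤ) (b : ℕ → ℕ) (h : ℕ) (R γ : ℝ)
    (hb : ∀ i ∈ J, ((J.filter (fun j => i ≠ j ∧ ∀ p ∈ h.primeFactors,
        (d i j).natAbs.factorization p ≠ b p)).card : ℝ) ≤ R * (h : ℝ) ^ (-γ)) :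
    ((bad J d b h).card : ℝ) ≤ J.card * (R * (h : ℝ) ^ (-γ)) := by
  classical
  have h1 : (bad J d b h).card = ∑ i ∈ J, (J.filter (fun j => i ≠ j ∧ ∀ p ∈ h.primeFactors,
        (d i j).natAbs.factorization p ≠ b p)).card := by
    unfold bad
    rw [card_filter, sum_product]
    apply sum_congr rfl
    intro i hi
    rw [card_filter]
  rw [h1]
  push_cast
  calc ∑ i ∈ J, ((J.filter (fun j => i ≠ j ∧ ∀ p ∈ h.primeFactors,
        (d i j).natAbs.factorization p ≠ b p)).card : ℝ) ≤ ∑ i ∈ J, R * (h : ℝ) ^ (-γ) :=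
        sum_le_sum hb
    _ = J.card * (R * (h : ℝ) ^ (-γ)) := by rw [sum_const, nsmul_eq_mul]

/-- a large bad divisor for one of the edges -/
theorem edge {J : Finset ℕ} {d : ℕ → ℕ → ℤ} {b : ℕ → ℕ} {Y0 : ℤ} (hY : 1 ≤ Y0)
    (hd : ∀ i ∈ J, ∀ j ∈ J, i ≠ j → 1 ≤ d i j) {t : ℕ × ℕ × ℕ × ℕ} (ht : t ∈ T4 J)
    (hs : IsSquare (cyc d t * Y0)) :
    ∃ i : Fin 4, ∃ h ∈ (osf Y0).divisors, (osf Y0 : ℝ) ^ ((1 : ℝ) / 4) ≤ h ∧ Squarefree h ∧
      Odd h ∧ ed t i ∈ bad J d b h := by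
  classical
  -- positivity of the edges
  have hmem : ∀ i : Fin 4, (ed t i).1 ∈ J ∧ (ed t i).2 ∈ J ∧ (ed t i).1 ≠ (ed t i).2 := by
    unfold T4 at ht
    simp only [mem_filter, mem_product] at ht
    obtain ⟨⟨h1, h2, h3, h4⟩, h5, h6, h7, h8⟩ := ht
    intro i
    fin_cases i
    · exact ⟨h1, h3, h5⟩
    · exact ⟨h1, h4, h6⟩
    · exact ⟨h2, h3, h7⟩
    · exact ⟨h2, h4, h8⟩
  set D : Fin 4 → ℕ := fun i => (d (ed t i).1 (ed t i).2).natAbs with hD
  have hD0 : ∀ i, D i ≠ 0 := by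
    intro i
    have h1 := hd _ (hmem i).1 _ (hmem i).2.1 (hmem i).2.2
    simp only [hD]
    omega
  have hY0 : Y0.natAbs ≠ 0 := by omega
  have hsq : IsSquare ((∏ i, D i) * Y0.natAbs) := by
    obtain ⟨r, hr⟩ := hs
    refine ⟨r.natAbs, ?_⟩
    rw [← Int.natAbs_mul, ← hr, Int.natAbs_mul, cyc_ed, Fin.prod_univ_four, Fin.prod_univ_four,
      Int.natAbs_mul, Int.natAbs_mul, Int.natAbs_mul]
  -- the set of primes and the parts
  set P := (osf Y0).primeFactors with hP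
  set Q : Fin 4 → Finset ℕ := fun i => P.filter (fun p => (D i).factorization p ≠ b p) with hQ
  have hcov : P ⊆ univ.biUnion Q := by
    intro p hp
    by_contra hcon
    have hall : ∀ i, (D i).factorization p = b p := by
      intro i
      by_contra hne
      exact hcon (mem_biUnion.2 ⟨i, mem_univ i, mem_filter.2 ⟨hp, hne⟩⟩)
    have h1 := even_of_sq (p := p) (prod_ne_zero_iff.2 (fun i _ => hD0 i)) hY0 hsq
    have h2 : (∏ i, D i).factorization p = 4 * b p := by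
      rw [Nat.factorization_prod (fun i _ => hD0 i), Finset.sum_apply', Fin.sum_univ_four, hall,
        hall, hall, hall]
      ring
    rw [hP, osf_primeFactors, mem_filter] at hp
    obtain ⟨_, _, c, hc⟩ := hp
    rw [h2, hc] at h1
    obtain ⟨r, hr⟩ := h1
    omega
  have hprime : ∀ p ∈ P, p.Prime := fun p hp => Nat.prime_of_mem_primeFactors hp
  have h2P : 2 ∉ P := by
    intro h
    rw [hP, osf_primeFactors, mem_filter] at h
    exact h.2.1 rfl
  have hosf : osf Y0 = ∏ p ∈ P, p := by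
    rw [hP, osf_primeFactors]; rfl
  -- the product of the parts is at least osf
  have hprod : (osf Y0 : ℝ) ≤ ∏ i, ((∏ p ∈ Q i, p : ℕ) : ℝ) := by
    have h1 : osf Y0 ∣ ∏ i, ∏ p ∈ Q i, p := by
      rw [hosf]
      apply Finset.prod_primes_dvd
      · intro p hp
        exact (hprime p hp).prime
      · intro p hp
        obtain ⟨i, _, hi⟩ := mem_biUnion.1 (hcov hp)
        exact (dvd_prod_of_mem _ hi).trans (dvd_prod_of_mem (fun i => ∏ p ∈ Q i, p) (mem_univ i))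
    have h2 : osf Y0 ≤ ∏ i, ∏ p ∈ Q i, p := by
      apply Nat.le_of_dvd _ h1
      apply prod_pos
      intro i _
      apply prod_pos
      intro p hp
      exact (hprime p (mem_filter.1 hp).1).pos
    exact_mod_cast h2
  have hQP : ∀ i, ∀ p ∈ Q i, p.Prime := fun i p hp => hprime p (mem_filter.1 hp).1
  have hex : ∃ i, (osf Y0 : ℝ) ^ ((1 : ℝ) / 4) ≤ ((∏ p ∈ Q i, p : ℕ) : ℝ) := by
    by_contra hcon
    push Not at hcon
    have h1 : ∏ i, ((∏ p ∈ Q i, p : ℕ) : ℝ) < ∏ i : Fin 4, (osf Y0 : ℝ) ^ ((1 : ℝ) / 4) := by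
      apply prod_lt_prod_of_nonempty
      · intro i _
        have : 0 < ∏ p ∈ Q i, p := prod_pos (fun p hp => (hQP i p hp).pos)
        exact_mod_cast this
      · intro i _
        exact hcon i
      · exact ⟨0, mem_univ _⟩
    have h2 : ∏ i : Fin 4, (osf Y0 : ℝ) ^ ((1 : ℝ) / 4) = osf Y0 := by
      rw [prod_const, card_univ, Fintype.card_fin, ← Real.rpow_natCast, ← Real.rpow_mul (by positivity)]
      norm_num
    rw [h2] at h1
    linarith
  obtain ⟨i, hi⟩ := hex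
  have h2Q : 2 ∉ Q i := fun h => h2P (mem_filter.1 h).1
  obtain ⟨k1, k2, k3⟩ := prod_primes (hQP i) h2Q
  refine ⟨i, ∏ p ∈ Q i, p, ?_, hi, k1, k2, ?_⟩
  · rw [Nat.mem_divisors]
    refine ⟨?_, (osf_pos Y0).ne'⟩
    rw [hosf]
    exact prod_dvd_prod_of_subset _ _ _ (filter_subset _ _)
  · unfold bad
    rw [mem_filter, mem_product]
    refine ⟨⟨(hmem i).1, (hmem i).2.1⟩, (hmem i).2.2, ?_⟩
    rw [k3]
    intro p hp
    exact (mem_filter.1 hp).2

theorem st_WE : ST_WE := by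
  classical
  intro γ hγ
  obtain ⟨C0, hC0, hdiv⟩ := Pool.Agent.Helper13.Hall.divisor_bound (ε := γ / 8) (by positivity)
  refine ⟨4 * C0, by positivity, ?_⟩
  intro J d b R Y0 hR hY hd hb
  set e : ℕ := osf Y0 with he
  have he1 : 0 < e := osf_pos Y0
  have he1' : (0 : ℝ) < e := by exact_mod_cast he1
  set H := e.divisors.filter
    (fun h : ℕ => (e : ℝ) ^ ((1 : ℝ) / 4) ≤ (h : ℝ) ∧ Squarefree h ∧ Odd h) with hH
  set X : Fin 4 × ℕ → Finset (ℕ × ℕ × ℕ × ℕ) := fun x =>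
    (T4 J).filter (fun t => ed t x.1 ∈ bad J d b x.2) with hX
  have hsub : (T4 J).filter (fun t => IsSquare (cyc d t * Y0)) ⊆
      ((univ : Finset (Fin 4)) ×ˢ H).biUnion X := by
    intro t ht
    rw [mem_filter] at ht
    obtain ⟨i, h, h1, h2, h3, h4, h5⟩ := edge (b := b) hY hd ht.1 ht.2
    exact mem_biUnion.2 ⟨(i, h), mem_product.2 ⟨mem_univ _, mem_filter.2 ⟨h1, h2, h3, h4⟩⟩,
      mem_filter.2 ⟨ht.1, h5⟩⟩
  have hXc : ∀ x ∈ (univ : Finset (Fin 4)) ×ˢ H, ((X x).card : ℝ) ≤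
      R * (J.card : ℝ) ^ 3 * (e : ℝ) ^ (-(γ / 4)) := by
    rintro ⟨i, h⟩ hx
    rw [mem_product] at hx
    obtain ⟨_, g1, g2, g3⟩ := mem_filter.1 hx.2
    have h1 : (X (i, h)).card ≤ (bad J d b h ×ˢ (J ×ˢ J)).card := by
      apply card_le_card_of_injOn (fun t => (ed t i, ot t i))
      · intro t ht
        rw [mem_coe] at ht ⊢
        obtain ⟨t1, t2⟩ := mem_filter.1 ht
        rw [mem_product, mem_product]
        refine ⟨t2, ?_⟩
        unfold T4 at t1
        simp only [mem_filter, mem_product] at t1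
        obtain ⟨⟨k1, k2, k3, k4⟩, _⟩ := t1
        fin_cases i
        · exact ⟨k2, k4⟩
        · exact ⟨k2, k3⟩
        · exact ⟨k1, k4⟩
        · exact ⟨k1, k3⟩
      · intro t ht t' ht' htt
        simp only [Prod.mk.injEq] at htt
        exact ed_ot htt.1 htt.2
    rw [card_product, card_product] at h1
    have h2 : ((X (i, h)).card : ℝ) ≤ ((bad J d b h).card : ℝ) * (J.card * J.card) := by
      exact_mod_cast h1
    have h3 := bad_card J d b h R γ (fun j hj => hb j hj h g2 g3)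
    have h4 : (h : ℝ) ^ (-γ) ≤ (e : ℝ) ^ (-(γ / 4)) := by
      have h5 : ((e : ℝ) ^ ((1 : ℝ) / 4)) ^ (-γ) = (e : ℝ) ^ (-(γ / 4)) := by
        rw [← Real.rpow_mul he1'.le]
        congr 1
        ring
      rw [← h5]
      apply Real.rpow_le_rpow_of_nonpos (by positivity) g1 (by linarith)
    calc ((X (i, h)).card : ℝ) ≤ ((bad J d b h).card : ℝ) * (J.card * J.card) := h2
      _ ≤ (J.card * (R * (e : ℝ) ^ (-(γ / 4)))) * (J.card * J.card) := by
          apply mul_le_mul_of_nonneg_right (h3.trans _) (by positivity)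
          apply mul_le_mul_of_nonneg_left _ (by positivity)
          exact mul_le_mul_of_nonneg_left h4 hR
      _ = R * (J.card : ℝ) ^ 3 * (e : ℝ) ^ (-(γ / 4)) := by ring
  have hHc : (H.card : ℝ) ≤ C0 * (e : ℝ) ^ (γ / 8) := by
    refine le_trans ?_ (hdiv e)
    exact_mod_cast card_le_card (filter_subset _ _)
  have hfin : (((T4 J).filter (fun t => IsSquare (cyc d t * Y0))).card : ℝ) ≤
      (4 * (H.card : ℝ)) * (R * (J.card : ℝ) ^ 3 * (e : ℝ) ^ (-(γ / 4))) := by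
    have h1 : (((T4 J).filter (fun t => IsSquare (cyc d t * Y0))).card : ℝ) ≤
        ∑ x ∈ (univ : Finset (Fin 4)) ×ˢ H, ((X x).card : ℝ) := by
      exact_mod_cast (card_le_card hsub).trans card_biUnion_le
    refine h1.trans ((sum_le_sum hXc).trans (le_of_eq ?_))
    rw [sum_const, card_product, card_univ, Fintype.card_fin, nsmul_eq_mul]
    push_cast
    ring
  have hpow : (e : ℝ) ^ (γ / 8) * (e : ℝ) ^ (-(γ / 4)) = (e : ℝ) ^ (-(γ / 8)) := by
    rw [← Real.rpow_add he1']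
    congr 1
    ring
  have hcoe : (((T4 J).filter (fun t => IsSquare (cyc d t * Y0))).card : ℝ) ≤
      4 * C0 * R * (J.card : ℝ) ^ 3 * (e : ℝ) ^ (-(γ / 8)) := by
    calc (((T4 J).filter (fun t => IsSquare (cyc d t * Y0))).card : ℝ)
        ≤ (4 * (H.card : ℝ)) * (R * (J.card : ℝ) ^ 3 * (e : ℝ) ^ (-(γ / 4))) := hfin
      _ ≤ (4 * (C0 * (e : ℝ) ^ (γ / 8))) * (R * (J.card : ℝ) ^ 3 * (e : ℝ) ^ (-(γ / 4))) := by
          apply mul_le_mul_of_nonneg_right _ (by positivity)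
          linarith
      _ = 4 * C0 * R * (J.card : ℝ) ^ 3 * ((e : ℝ) ^ (γ / 8) * (e : ℝ) ^ (-(γ / 4))) := by ring
      _ = _ := by rw [hpow]
  refine le_trans (le_of_eq ?_) hcoe
  congr 2

end Pool.Agent.Helper93.RD8
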